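import Mathlib
import Pool.Agent.H290R4.ChernZ

/-!
# The Chern-Connes character of `K₀(ℤ[G])`, all conjugacy classes

If `K₀(ℤ) → K₀(ℤ[G])` is surjective, then all cyclic cocycles of degree `2 n ≥ 2` on `ℤ[G]`, that
is all cycles `(Ω, δ, T)` of dimension `2 n ≥ 2` over `ℤ[G]` in the sense of Connes, vanish on all
idempotent matrices over `ℤ[G]`: `T (e (δ e) ^ (2 n)) = 0`. We prove this, without any assumption on
`K₀`, for all torsion-free groups `G` which are locally residually finite or linear over a field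
(of any characteristic), for all cycles, whatever the conjugacy classes of `G` are on which they
live, with values in any torsion-free group which is `p`-adically separated for all `p`. As
`G × ℤ ^ m` is a group of the same kind, this covers the classes of `K_{-m}(ℤ[G])` in
`K₀(ℤ[G × ℤ ^ m])`.

The general criterion, for arbitrary groups: only the elements `g ≠ 1` can matter which are
conjugate, in a given finitely generated subgroup, for every prime `p` to some `g ^ (p ^ j)`,
`j ≥ 1`.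
-/

set_option autoImplicit false

namespace Pool.Agent.Results.MP_16fe43_al.EvenCyclicCocycles

open Pool.Agent.H23R2 Pool.Agent.H23R2.Ch Pool.Agent.H290R4.ChernZ

universe u1 u2 u3 u4 u5

/-- `(Ω, δ, T)` is a cycle of dimension `N` with values in the `k`-module `M`: `Ω` is a graded
`k`-algebra with homogeneous components `𝒜 i`, `δ` is a differential of degree one, and `T` is a
closed graded trace which vanishes outside degree `N`. -/
structure IsCycle {k : Type u1} [CommRing k] {Ω : Type u4} [Ring Ω] [Algebra k Ω]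
    {M : Type u3} [AddCommGroup M] [Module k M] (N : ℕ) (𝒜 : ℕ → Submodule k Ω) [GradedAlgebra 𝒜]
    (δ : Ω →ₗ[k] Ω) (T : Ω →ₗ[k] M) : Prop where
  deg : ∀ i, ∀ x ∈ 𝒜 i, δ x ∈ 𝒜 (i + 1)
  sq : ∀ x, δ (δ x) = 0
  leibniz : ∀ i, ∀ x ∈ 𝒜 i, ∀ y, δ (x * y) = δ x * y + (-1) ^ i * (x * δ y)
  closed : ∀ x, T (δ x) = 0
  trace : ∀ i j, ∀ x ∈ 𝒜 i, ∀ y ∈ 𝒜 j, T (x * y) = T ((-1) ^ (i * j) * (y * x))
  dim : ∀ i, i ≠ N → ∀ x ∈ 𝒜 i, T x = 0

/-- The value of the cycle on the group elements `a`, `b₁`, …, `b_r`. -/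
noncomputable def value {k : Type u1} [CommRing k] {G : Type u2} [Group G] {Ω : Type u4} [Ring Ω]
    [Algebra k Ω] {M : Type u3} [AddCommGroup M] [Module k M] (δ : Ω →ₗ[k] Ω) (T : Ω →ₗ[k] M)
    (ρ : MonoidAlgebra k G →ₐ[k] Ω) (a : G) (l : List G) : M :=
  T (ρ (MonoidAlgebra.single a 1) * (l.map fun b => δ (ρ (MonoidAlgebra.single b 1))).prod)

/-- `M` is `p`-adically separated. -/
def Separated (M : Type u3) [AddCommGroup M] (p : ℕ) : Prop :=
  ∀ x : M, (∀ m : ℕ, ∃ y : M, p ^ m • y = x) → x = 0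

section restrict

variable {k : Type*} [CommRing k] {G : Type*} [Group G] {M : Type*} [AddCommGroup M] [Module k M]
  {d : Type*} [Fintype d] [DecidableEq d] {Ω : Type*} [Ring Ω] [Algebra k Ω]
  {𝒜 : ℕ → Submodule k Ω} [GradedAlgebra 𝒜] {δ : Ω →ₗ[k] Ω} {T : Ω →ₗ[k] M}
  {ρ : MonoidAlgebra k G →ₐ[k] Ω}

/-- The vanishing theorem, with all hypotheses only on a subgroup containing the supports. -/
theorem vanishH (e : Matrix d d (MonoidAlgebra k G)) (he : e * e = e) (H : Subgroup G)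
    (hH : ∀ i j g, (e i j).coeff g ≠ 0 → g ∈ H)
    (h1 : ∃ p : ℕ, p.Prime ∧ Sep M p ∧ ∀ g ∈ H, g ^ p = 1 → g = 1)
    {n : ℕ} (hn : 1 ≤ n) (h : Pool.Agent.H23R2.Ch.IsCycle (2 * n) 𝒜 δ T) (hρ : ∀ a, ρ a ∈ 𝒜 0)
    (hloc : ∀ g ∈ H, g ≠ 1 → (∀ p : ℕ, p.Prime → Sep M p → ∃ j, 1 ≤ j ∧
        ∃ c ∈ H, c * g * c⁻¹ = g ^ p ^ j) →
      ∀ (a : G) (l : List G), a ∈ H → (∀ b ∈ l, b ∈ H) → l.length = 2 * n → a * l.prod = g →
        T (ρ (MonoidAlgebra.single a 1) *
          (l.map fun b => δ (ρ (MonoidAlgebra.single b 1))).prod) = 0) :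
    (Nat.centralBinom n) • T ((e.map ρ) * ((e.map ρ).map δ) ^ (2 * n)).trace = 0 := by
  classical
  let j : MonoidAlgebra k H →ₐ[k] MonoidAlgebra k G :=
    MonoidAlgebra.mapDomainAlgHom k k H.subtype
  have hj : Function.Injective j := MonoidAlgebra.mapDomain_injective H.subtype_injective
  let res : Matrix d d (MonoidAlgebra k H) :=
    Matrix.of fun a b => MonoidAlgebra.comapDomain H.subtype H.subtype_injective (e a b)
  have hres : res.map j = e := by
    ext1 a b
    exact restrict_eq H _ (fun g hg => hH a b g hg)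
  have hidem : res * res = res := by
    have h4 : (res * res).map j = res.map j := by
      rw [Matrix.map_mul, hres, he]
    ext1 a b
    apply hj
    exact congrFun (congrFun h4 a) b
  have h3 : ∀ x : H, (ρ.comp j) (MonoidAlgebra.single x 1) =
      ρ (MonoidAlgebra.single x.1 1) := by
    intro x
    simp [j]
  have key := cycle_vanish (d := d) (G := H) (ρ := ρ.comp j) (M := M)
    (by
      obtain ⟨p, hp, hs, hg⟩ := h1
      refine ⟨p, hp, hs, fun g hgp => ?_⟩
      apply Subtype.ext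
      exact hg g.1 g.2 (by simpa using congrArg Subtype.val hgp))
    hn h (fun a => hρ _)
    (by
      intro g hg hconj a l hl hal
      have h5 := hloc g.1 g.2 (fun hc => hg (Subtype.ext hc))
        (by
          intro p hp hs
          obtain ⟨i, hi, hc⟩ := hconj p hp hs
          obtain ⟨c, hc⟩ := isConj_iff.1 hc
          exact ⟨i, hi, c.1, c.2, by simpa using congrArg Subtype.val hc⟩)
        a.1 (l.map Subtype.val) a.2 (by
          intro b hb
          obtain ⟨x, _, rfl⟩ := List.mem_map.1 hb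
          exact x.2) (by simpa using hl) (by
          rw [← hal]
          push_cast
          rfl)
      rw [h3]
      rw [List.map_map] at h5
      have h6 : (l.map fun b => δ ((ρ.comp j) (MonoidAlgebra.single b 1))) =
          l.map ((fun h => δ (ρ (MonoidAlgebra.single h 1))) ∘ Subtype.val) := by
        refine List.map_congr_left fun b _ => ?_
        rw [h3]
        rfl
      rw [h6]
      exact h5)
    res hidem
  have h2 : res.map (ρ.comp j) = e.map ρ := by
    conv_rhs => rw [← hres]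
    ext1 a b
    simp
  rw [h2] at key
  exact key

end restrict

/-- `k` is a commutative ring (for example `ℤ`), `G` a group, `e` an idempotent matrix over `k[G]`,
`(Ω, δ, T)` a cycle of dimension `2 n ≥ 2` over `k[G]` with values in the torsion-free `k`-module
`M`. There is a prime `p` such that `M` is `p`-adically separated and `G` has no element of order
`p`. Moreover either
(a) for every finitely generated subgroup `H` and every `g ≠ 1` in `H` such that the cycle does not
vanish on all tuples of elements of `H` with product `g`, there is a prime `p` such that `M` is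
`p`-adically separated and `g` is not conjugate in `H` to any `g ^ (p ^ j)`, `j ≥ 1`; or
(b) `M` is `p`-adically separated for all primes `p` (for example `M = ℤ`), and `G` is locally
residually finite, or linear over some field.
Then `T (e (δ e) ^ (2 n)) = 0`. -/
theorem result (k : Type u1) [CommRing k] (G : Type u2) [Group G]
    (M : Type u3) [AddCommGroup M] [Module k M] (htf : ∀ (c : ℕ) (x : M), c ≠ 0 → c • x = 0 → x = 0)
    (hone : ∃ p : ℕ, p.Prime ∧ Separated M p ∧ ∀ g : G, g ^ p = 1 → g = 1)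
    (r : ℕ) (e : Matrix (Fin r) (Fin r) (MonoidAlgebra k G)) (he : e * e = e)
    (Ω : Type u4) [Ring Ω] [Algebra k Ω] (𝒜 : ℕ → Submodule k Ω) [GradedAlgebra 𝒜]
    (δ : Ω →ₗ[k] Ω) (T : Ω →ₗ[k] M) (n : ℕ) (hn : 1 ≤ n) (hT : IsCycle (2 * n) 𝒜 δ T)
    (ρ : MonoidAlgebra k G →ₐ[k] Ω) (hρ : ∀ a, ρ a ∈ 𝒜 0)
    (hG : (∀ H : Subgroup G, H.FG → ∀ g ∈ H, g ≠ 1 →
        (∃ (a : G) (l : List G), a ∈ H ∧ (∀ b ∈ l, b ∈ H) ∧ l.length = 2 * n ∧ a * l.prod = g ∧
          value δ T ρ a l ≠ 0) →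
        ∃ p : ℕ, p.Prime ∧ Separated M p ∧ ∀ j, 1 ≤ j → ∀ c ∈ H, c * g * c⁻¹ ≠ g ^ p ^ j) ∨
      ((∀ p : ℕ, p.Prime → Separated M p) ∧
        ((∀ H : Subgroup G, H.FG → Group.ResiduallyFinite H) ∨
          (∃ (K : Type u5) (_ : Field K) (N : ℕ) (φ : G →* GL (Fin N) K),
            Function.Injective φ)))) :
    T ((e.map ρ) * ((e.map ρ).map δ) ^ (2 * n)).trace = 0 := by
  refine htf (Nat.centralBinom n) _ (Nat.centralBinom_ne_zero n) ?_
  have hrf : (∀ p : ℕ, p.Prime → Separated M p) →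
      (∀ H : Subgroup G, H.FG → Group.ResiduallyFinite H) →
      ∀ H : Subgroup G, H.FG → ∀ g ∈ H, g ≠ 1 →
        (∃ (a : G) (l : List G), a ∈ H ∧ (∀ b ∈ l, b ∈ H) ∧ l.length = 2 * n ∧ a * l.prod = g ∧
          value δ T ρ a l ≠ 0) →
        ∃ p : ℕ, p.Prime ∧ Separated M p ∧ ∀ j, 1 ≤ j → ∀ c ∈ H, c * g * c⁻¹ ≠ g ^ p ^ j := by
    intro hM h1 H hH g hg hg1 _
    have := h1 H hH
    obtain ⟨p, hp, hc⟩ := exists_prime (⟨g, hg⟩ : H) (fun h0 => hg1 (congrArg Subtype.val h0))
    refine ⟨p, hp, hM p hp, fun j hj c hcH heq => hc j hj ⟨c, hcH⟩ (Subtype.ext ?_)⟩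
    simpa using heq
  have hG2 : ∀ H : Subgroup G, H.FG → ∀ g ∈ H, g ≠ 1 →
        (∃ (a : G) (l : List G), a ∈ H ∧ (∀ b ∈ l, b ∈ H) ∧ l.length = 2 * n ∧ a * l.prod = g ∧
          value δ T ρ a l ≠ 0) →
        ∃ p : ℕ, p.Prime ∧ Separated M p ∧ ∀ j, 1 ≤ j → ∀ c ∈ H, c * g * c⁻¹ ≠ g ^ p ^ j := by
    rcases hG with h1 | ⟨hM, h1 | ⟨K, iK, N, φ, hφ⟩⟩
    · exact h1
    · exact hrf hM h1
    · refine hrf hM fun H hH => ?_
      have : Group.FG H := (Group.fg_iff_subgroup_fg H).2 hH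
      exact malcev (φ.comp H.subtype) (hφ.comp H.subtype_injective)
  refine vanishH e he (supp e) (fun i j g hg => Subgroup.subset_closure ⟨i, j, hg⟩) ?_ hn
    ⟨hT.deg, hT.sq, hT.leibniz, hT.closed, hT.trace, hT.dim⟩ hρ ?_
  · obtain ⟨p, hp, hs, hg⟩ := hone
    exact ⟨p, hp, hs, fun g _ => hg g⟩
  · intro g hg hg1 hp a l ha hl hlen hal
    by_contra hne
    obtain ⟨p, hpp, hs, hj⟩ := hG2 (supp e) (supp_fg e) g hg hg1 ⟨a, l, ha, hl, hlen, hal, hne⟩
    obtain ⟨j, hj1, c, hc, hcg⟩ := hp p hpp hs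
    exact hj j hj1 c hc hcg

end Pool.Agent.Results.MP_16fe43_al.EvenCyclicCocycles
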