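import Pool.Agent.Y72.Fp.Main

/-!
# Invertible matrices over integral group rings of groups of formal diffeomorphisms

Let `Γ` be a torsion-free group, and suppose that (a) the centralisers of the elements `c ≠ 1` are
commutative, and in every finitely generated subgroup of `Γ` every element `c ≠ 1` is an `l`-th
power for finitely many primes `l` only; or (b) `Γ` acts faithfully on the ring `K⟦X⟧` of formal
power series over a field `K` of characteristic zero by `K`-algebra automorphisms, that is, `Γ` is
a group of power series `a₁ X + a₂ X² + ⋯`, `a₁ ≠ 0`, under substitution, for example a group of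
germs at a fixed point of real or complex analytic diffeomorphisms in one variable.

For every invertible matrix `A` over `ℤΓ` there are `γ ∈ Γ` and a sign `ε` such that `A` and `ε γ`
have the same determinants in all finite-dimensional representations of `Γ` over all fields and the
same Dennis trace in the Hochschild homology group `HH₁(ℤΓ)`.
-/

set_option autoImplicit false

namespace Pool.Agent.Results.MP_16fe43_al.FormalDiffeomorphisms

open Pool.Agent.Y72.Fp PowerSeries

universe u v w x

/-- The matrix `A` has the determinants and the values of all Hochschild `1`-cocycles of one trivial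
unit. -/
theorem result {Γ : Type u} [Group Γ] (htf : ∀ g : Γ, ∀ m : ℕ, 0 < m → g ^ m = 1 → g = 1)
    (h : ((∀ c : Γ, c ≠ 1 → ∀ x y : Γ, x * c = c * x → y * c = c * y → x * y = y * x) ∧
        ∀ H : Subgroup Γ, H.FG → ∀ c ∈ H, c ≠ 1 →
          {l : ℕ | l.Prime ∧ ∃ x ∈ H, x ^ l = c}.Finite) ∨
      ∃ (K : Type x) (_ : Field K) (_ : CharZero K) (ρ : Γ →* (K⟦X⟧ ≃ₐ[K] K⟦X⟧)),
        Function.Injective ρ)
    {n : ℕ} (A : (Matrix (Fin n) (Fin n) (MonoidAlgebra ℤ Γ))ˣ) :
    ∃ ε : ℤ, (ε = 1 ∨ ε = -1) ∧ ∃ γ : Γ,
      (∀ (L : Type w) [Field L] (d : ℕ) (σ : Γ →* GL (Fin d) L),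
        (Matrix.of fun x y : Fin n × Fin d =>
          (A.val x.1 y.1).coeff.sum fun g a => (a : L) * (σ g).val x.2 y.2).det =
            (ε : L) ^ d * (σ γ).val.det) ∧
      ∀ (M : Type v) [AddCommGroup M] (f : Γ → Γ → M),
        (∀ x y z : Γ, f (x * y) z - f x (y * z) + f (z * x) y = 0) →
        (∑ i, ∑ j, ((A⁻¹).val i j).coeff.sum fun g b =>
            (A.val j i).coeff.sum fun h a => (b * a) • f g h) = f γ⁻¹ γ := by
  rcases h with ⟨h1, h2⟩ | ⟨K, _, _, ρ, hρ⟩
  · exact main_cb (cn_ct htf h1 h2) A
  · exact main_cb (cn_all ρ hρ htf) A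

end Pool.Agent.Results.MP_16fe43_al.FormalDiffeomorphisms
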