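import Pool.Agent.Y72.Pl.Main

/-!
# Invertible matrices over integral group rings of groups of piecewise linear homeomorphisms

Let `Γ` be a group of piecewise linear homeomorphisms of the line with compact support, for example
Thompson's group `F`, or, more generally, a group which is residually of this kind.  These groups
are torsion-free.  We prove that no class of `Wh(Γ)` is detected by finite-dimensional
representations of `Γ` over fields, or by homomorphisms from the Hochschild homology group
`HH₁(ℤΓ)` to abelian groups without divisible torsion: for every invertible matrix `A` over `ℤΓ`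
there are `γ ∈ Γ` and a sign `ε` such that `A` and `ε γ` have the same determinants in all
representations and the same Dennis trace, up to torsion which is divisible by all positive
integers.
-/

set_option autoImplicit false

namespace Pool.Agent.Results.MP_16fe43_al.PiecewiseLinear

open Pool.Agent.Y72.Pl

universe u v w

/-- `Γ` is any group such that every `g ≠ 1` is detected by a homomorphism from `Γ` to the group of
piecewise linear homeomorphisms of `ℝ` with compact support. -/
theorem result {Γ : Type u} [Group Γ]
    (h : ∀ g : Γ, g ≠ 1 → ∃ ρ : Γ →* (ℝ ≃o ℝ), ρ g ≠ 1 ∧ ∀ x : Γ, IsPL (ρ x))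
    {n : ℕ} (A : (Matrix (Fin n) (Fin n) (MonoidAlgebra ℤ Γ))ˣ) :
    ∃ ε : ℤ, (ε = 1 ∨ ε = -1) ∧ ∃ γ : Γ,
      (∀ (L : Type w) [Field L] (d : ℕ) (σ : Γ →* GL (Fin d) L),
        (Matrix.of fun x y : Fin n × Fin d =>
          (A.val x.1 y.1).coeff.sum fun g a => (a : L) * (σ g).val x.2 y.2).det =
            (ε : L) ^ d * (σ γ).val.det) ∧
      ∃ k : ℕ, 0 < k ∧ ∀ (M : Type v) [AddCommGroup M] (f : Γ → Γ → M),
        (∀ x y z : Γ, f (x * y) z - f x (y * z) + f (z * x) y = 0) →
        k • ((∑ i, ∑ j, ((A⁻¹).val i j).coeff.sum fun g b =>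
            (A.val j i).coeff.sum fun h a => (b * a) • f g h) - f γ⁻¹ γ) = 0 ∧
        ∀ m : ℕ, 0 < m → ∃ y : M,
          (∑ i, ∑ j, ((A⁻¹).val i j).coeff.sum fun g b =>
            (A.val j i).coeff.sum fun h a => (b * a) • f g h) - f γ⁻¹ γ = m • y :=
  pl_main h A

end Pool.Agent.Results.MP_16fe43_al.PiecewiseLinear
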