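import Pool.Agent.Y84.PK.O

/-!
# The Chern character of `K₁(K[G])` and finite quotients of centralisers

Let `G` be a torsion-free group. If `Wh(G) = 0`, then for every invertible matrix `u` over `ℤ[G]`
there is `γ ∈ G` such that all cyclic cocycles of odd degree `2 n + 1` on `ℚ[G]`, that is all cycles
`(Ω, δ, T)` of dimension `2 n + 1` in the sense of Connes, take the same value on `u` and on `γ`:
`T (v δu (δv δu) ^ n) = T (γ⁻¹ δγ (δγ⁻¹ δγ) ^ n)`, `v = u⁻¹`. We prove this, for all invertible
matrices over `K[G]`, `K` any field of characteristic zero, and the cycles with values in a finitely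
generated subgroup of a vector space, if the centralisers of the elements `≠ 1` in the finitely
generated subgroups of `G` are residually finite (for example if `G` is locally residually finite),
and a more general statement in which the conjugacy classes are separated.

Proof. Let `pr : K[words] → K[G]` be the map from the monoid algebra of the words in the elements of
`G`, and `J` its kernel. The cycle has a potential, a function `Φ` on the words which vanishes on
`[K[words], J ^ (n + 1)]`, and `T (v δu (δv δu) ^ n) = Φ((1 - u v) ^ (n + 1)) - Φ((1 - v u) ^ (n + 1))`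
for the lifts of `u` and `v` to matrices over `K[words]`. This is the sum of the contributions of the
conjugacy classes.

(a) Let `g ≠ 1` be such that the centraliser has enough finite quotients; let `π` be a homomorphism
from the centraliser to a finite group `Q` such that the order of `c = π(g)` is divisible by `p` and by
a high power of `p`. The coefficients and the values are specialised to an algebraic closure of `ℚ_p`;
the skew monoid ring of the words over the ring of functions on `G` is divided by the radical of the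
bilinear form of `Φ_g` on the power of the ideal, and the cocycle `G × G → Q` defined by `π` decomposes
the matrices into the coefficients of matrices over `U[Q]`. Replace `c` by a variable; on a `p`-adic
disc which contains `ζ` and `ζ ω`, `ζ` a root of unity and `ω` a root of unity of order `p`, we have a
family of nearly invertible matrices over `U`, and the values at `ζ` and `ζ ω` agree. Hence the
contribution of `g` vanishes.

(b) If `g` is not conjugate to the `g ^ (p ^ j)`, for infinitely many primes `p`, then the contribution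
is `± Φ_g` of `p ^ κ`-th powers modulo `p`, and vanishes modulo `p`, for these primes.

(c) For `g = 1` the contribution is modulo `p`, `p` large, a semilinear expression in the values
`χ(x)`, where `χ : G → R / p` is the homomorphism `Φ((x y) ^ p) - Φ((y x) ^ p)`, `y` a word which
represents `x⁻¹`; it is the reduction of a combination of homomorphisms `G → ℤ`, and is computed
by the determinant over the group algebra of the abelianisation, and (a), (b) in degree one.
-/

set_option autoImplicit false

namespace Pool.Agent.Results.MP_16fe43_al.WhiteheadTraces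

universe u1 u2 u3 u4 u5

/-- `(Ω, δ, T)` is a cycle of dimension `N` with values in the vector space `M`: `Ω` is a graded
algebra with homogeneous components `𝒜 i`, `δ` is a differential of degree one, and `T` is a
closed graded trace which vanishes outside degree `N`. -/
structure IsCycle {K : Type u1} [Field K] {Ω : Type u4} [Ring Ω] [Algebra K Ω] {M : Type u5}
    [AddCommGroup M] [Module K M] (N : ℕ) (𝒜 : ℕ → Submodule K Ω) [GradedAlgebra 𝒜]
    (δ : Ω →ₗ[K] Ω) (T : Ω →ₗ[K] M) : Prop where
  deg : ∀ i, ∀ x ∈ 𝒜 i, δ x ∈ 𝒜 (i + 1)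
  sq : ∀ x, δ (δ x) = 0
  leibniz : ∀ i, ∀ x ∈ 𝒜 i, ∀ y, δ (x * y) = δ x * y + (-1) ^ i * (x * δ y)
  closed : ∀ x, T (δ x) = 0
  trace : ∀ i j, ∀ x ∈ 𝒜 i, ∀ y ∈ 𝒜 j, T (x * y) = T ((-1) ^ (i * j) * (y * x))
  dim : ∀ i, i ≠ N → ∀ x ∈ 𝒜 i, T x = 0

/-- For every `m ≠ 0` the centraliser of `g` has a homomorphism `π` to a finite group with
`π(g) ^ m ≠ 1`. -/
def FiniteQuotients {H : Type u2} [Group H] (g : H) : Prop :=
  ∀ m : ℕ, m ≠ 0 → ∃ (Q : Type u2) (_ : Group Q) (_ : Finite Q)
    (π : Subgroup.centralizer ({g} : Set H) →* Q),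
      π ⟨g, Subgroup.mem_centralizer_singleton_iff.2 rfl⟩ ^ m ≠ 1

/-- residually finite -/
def RF (G : Type u2) [Group G] : Prop :=
  ∀ g : G, g ≠ 1 → ∃ N : Subgroup G, N.Normal ∧ N.FiniteIndex ∧ g ∉ N

/-- The value of the cycle on the group elements `a`, `b₁`, …, `b_r`. -/
noncomputable def value {K : Type u1} [Field K] {G : Type u2} [Group G] {Ω : Type u4} [Ring Ω]
    [Algebra K Ω] {M : Type u5} [AddCommGroup M] [Module K M] (δ : Ω →ₗ[K] Ω) (T : Ω →ₗ[K] M)
    (ρ : MonoidAlgebra K G →ₐ[K] Ω) (a : G) (l : List G) : M :=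
  T (ρ (MonoidAlgebra.single a 1) * (l.map fun b => δ (ρ (MonoidAlgebra.single b 1))).prod)

/-- The subgroup generated by the supports of the entries of `u` and `v`. -/
def supp {K : Type u1} [Field K] {G : Type u2} [Group G] {d : Type u3}
    (u v : Matrix d d (MonoidAlgebra K G)) : Subgroup G :=
  Subgroup.closure {g | ∃ i j, (u i j).coeff g ≠ 0 ∨ (v i j).coeff g ≠ 0}

/-- The value `T (v δu (δv δu) ^ n)` of the cycle on the matrix `u` with inverse `v`. -/
noncomputable def onMat {K : Type u1} [Field K] {G : Type u2} [Group G] {d : Type u3} [Fintype d]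
    [DecidableEq d] {Ω : Type u4} [Ring Ω] [Algebra K Ω] {M : Type u5} [AddCommGroup M] [Module K M]
    (δ : Ω →ₗ[K] Ω) (T : Ω →ₗ[K] M) (ρ : MonoidAlgebra K G →ₐ[K] Ω) (n : ℕ)
    (u v : Matrix d d (MonoidAlgebra K G)) : M :=
  T (v.map ρ * (u.map ρ).map δ * ((v.map ρ).map δ * (u.map ρ).map δ) ^ n).trace

/-- The value `T (γ⁻¹ δγ (δγ⁻¹ δγ) ^ n)` of the cycle on the group element `γ`. -/
noncomputable def onElt {K : Type u1} [Field K] {G : Type u2} [Group G] {Ω : Type u4} [Ring Ω]
    [Algebra K Ω] {M : Type u5} [AddCommGroup M] [Module K M] (δ : Ω →ₗ[K] Ω) (T : Ω →ₗ[K] M)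
    (ρ : MonoidAlgebra K G →ₐ[K] Ω) (n : ℕ) (γ : G) : M :=
  T (ρ (MonoidAlgebra.single γ⁻¹ 1) * δ (ρ (MonoidAlgebra.single γ 1)) *
    (δ (ρ (MonoidAlgebra.single γ⁻¹ 1)) * δ (ρ (MonoidAlgebra.single γ 1))) ^ n)

/-- The values of the cycle, of dimension `N`, on the elements of `H` lie in the module generated by a
finite set `F` over the subring generated by a finite set `s`, and for every `g ≠ 1` of `H` there are
infinitely many primes `p` such that `g` is not conjugate to any `g ^ (p ^ j)`, `j ≥ 1`, in `H`, or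
the centraliser of `g` in `H` has enough finite quotients and the values with product conjugate to `g`
in `H` lie in a finitely generated subgroup of `M`. -/
def Adm {K : Type u1} [Field K] {G : Type u2} [Group G] {Ω : Type u4} [Ring Ω]
    [Algebra K Ω] {M : Type u5} [AddCommGroup M] [Module K M] (δ : Ω →ₗ[K] Ω) (T : Ω →ₗ[K] M)
    (ρ : MonoidAlgebra K G →ₐ[K] Ω) (N : ℕ) (H : Subgroup G) : Prop :=
  (∃ (s : Finset K) (F : Finset M), ∀ (a : H) (l : List H), l.length = N →
    value δ T ρ a (l.map Subtype.val) ∈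
      Submodule.span (Algebra.adjoin ℤ (s : Set K)) (F : Set M)) ∧
  ∀ g : H, g ≠ 1 → {p : ℕ | p.Prime ∧ ∀ j, 1 ≤ j → ¬ IsConj g (g ^ p ^ j)}.Infinite ∨
    (FiniteQuotients g ∧ ∃ F' : Finset M, ∀ (a : H) (l : List H),
      l.length = N → IsConj g (a * l.prod) →
        value δ T ρ a (l.map Subtype.val) ∈ AddSubgroup.closure (F' : Set M))

/-- `G` is torsion-free, and in the finitely generated subgroups of `G` the centralisers of the
elements `≠ 1` are residually finite. -/
def LRF (G : Type u2) [Group G] : Prop :=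
  (∀ g : G, IsOfFinOrder g → g = 1) ∧
    ∀ H : Subgroup G, H.FG → ∀ g : H, g ≠ 1 → RF (Subgroup.centralizer ({g} : Set H))

/-- `K` is a field of characteristic zero, `G` a group, `u` an invertible matrix over `K[G]` with
inverse `v`, `H = supp u v` the subgroup generated by the supports of `u` and `v`. There is `γ ∈ G`
such that `T (v δu (δv δu) ^ n) = T (γ⁻¹ δγ (δγ⁻¹ δγ) ^ n)` for all `n ≥ 0` and all cycles
`(Ω, δ, T)` over `K[G]` of dimension `2 n + 1` with values in a vector space `M` for which
(1) the condition `Adm` holds for the subgroup `H`, or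
(2) `G` is torsion-free, in the finitely generated subgroups of `G` the centralisers of the elements
`≠ 1` are residually finite, and the values of the cycle lie in a finitely generated group. -/
theorem result (K : Type u1) [Field K] [CharZero K] (G : Type u2) [Group G] (d : Type u3)
    [Fintype d] [DecidableEq d] (u v : Matrix d d (MonoidAlgebra K G)) (huv : u * v = 1)
    (hvu : v * u = 1) : ∃ γ : G,
    ∀ (Ω : Type u4) [Ring Ω] [Algebra K Ω] (𝒜 : ℕ → Submodule K Ω) [GradedAlgebra 𝒜]
      (M : Type u5) [AddCommGroup M] [Module K M] (δ : Ω →ₗ[K] Ω) (T : Ω →ₗ[K] M) (n : ℕ),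
      IsCycle (2 * n + 1) 𝒜 δ T → ∀ ρ : MonoidAlgebra K G →ₐ[K] Ω, (∀ a, ρ a ∈ 𝒜 0) →
      (Adm δ T ρ (2 * n + 1) (supp u v) ∨
        (LRF G ∧ ∃ F : Finset M, ∀ (a : G) (l : List G), l.length = 2 * n + 1 →
          value δ T ρ a l ∈ AddSubgroup.closure (F : Set M))) →
      onMat δ T ρ n u v = onElt δ T ρ n γ := by
  classical
  have hFG : (supp u v).FG := by
    refine ⟨Finset.univ.biUnion fun i => Finset.univ.biUnion fun j =>
      (u i j).coeff.support ∪ (v i j).coeff.support, ?_⟩
    unfold supp
    congr 1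
    ext g
    simp [Finsupp.mem_support_iff]
  have hHu : ∀ i j g, (u i j).coeff g ≠ 0 → g ∈ supp u v := fun i j g hg =>
    Subgroup.subset_closure ⟨i, j, Or.inl hg⟩
  have hHv : ∀ i j g, (v i j).coeff g ≠ 0 → g ∈ supp u v := fun i j g hg =>
    Subgroup.subset_closure ⟨i, j, Or.inr hg⟩
  have hmap : ∀ (Ω : Type u4) [Ring Ω] [Algebra K Ω] (M : Type u5) [AddCommGroup M] [Module K M]
      (δ : Ω →ₗ[K] Ω) (T : Ω →ₗ[K] M) (ρ : MonoidAlgebra K G →ₐ[K] Ω) (a : supp u v)
      (l : List (supp u v)),
      value δ T ρ a (l.map Subtype.val) = T (ρ (MonoidAlgebra.single (a : G) 1) *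
        (l.map fun b : supp u v => δ (ρ (MonoidAlgebra.single (b : G) 1))).prod) := by
    intro Ω _ _ M _ _ δ T ρ a l
    unfold value
    rw [List.map_map]
    rfl
  by_cases hHG : ∀ g : supp u v, g ≠ 1 →
      {p : ℕ | p.Prime ∧ ∀ j, 1 ≤ j → ¬ IsConj g (g ^ p ^ j)}.Infinite ∨
        Pool.Agent.Y84.PH.Cen g
  · obtain ⟨γ, hγ⟩ := Pool.Agent.Y84.PK.all_group.{u1, u2, u3, u4, u5} u v huv hvu (supp u v) hFG
      hHu hHv hHG
    have part1 : ∀ (Ω : Type u4) [Ring Ω] [Algebra K Ω] (𝒜 : ℕ → Submodule K Ω) [GradedAlgebra 𝒜]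
        (M : Type u5) [AddCommGroup M] [Module K M] (δ : Ω →ₗ[K] Ω) (T : Ω →ₗ[K] M) (n : ℕ),
        IsCycle (2 * n + 1) 𝒜 δ T → ∀ ρ : MonoidAlgebra K G →ₐ[K] Ω, (∀ a, ρ a ∈ 𝒜 0) →
        Adm δ T ρ (2 * n + 1) (supp u v) → onMat δ T ρ n u v = onElt δ T ρ n (γ : G) := by
      intro Ω _ _ 𝒜 _ M _ _ δ T n hT ρ hρ hA
      obtain ⟨⟨s, F, hval⟩, hloc⟩ := hA
      simp only [hmap] at hval hloc
      exact hγ Ω 𝒜 M δ T n ⟨hT.deg, hT.sq, hT.leibniz, hT.closed, hT.trace, hT.dim⟩ ρ hρ s F hval
        hloc
    refine ⟨(γ : G), ?_⟩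
    intro Ω _ _ 𝒜 _ M _ _ δ T n hT ρ hρ h
    rcases h with hA | ⟨⟨htor, hG⟩, F, hF⟩
    · exact part1 Ω 𝒜 M δ T n hT ρ hρ hA
    refine part1 Ω 𝒜 M δ T n hT ρ hρ ⟨⟨∅, F, fun a l hl => ?_⟩, fun g hg => ?_⟩
    · have h1 : AddSubgroup.closure (F : Set M) ≤
          (Submodule.span (Algebra.adjoin ℤ ((∅ : Finset K) : Set K)) (F : Set M)).toAddSubgroup :=
        (AddSubgroup.closure_le _).2 Submodule.subset_span
      exact h1 (hF _ _ (by simpa using hl))
    · refine Or.inr ⟨fun m hm => ?_, F, fun a l hl _ => hF _ _ (by simpa using hl)⟩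
      obtain ⟨N, h1, h2, h3⟩ := hG _ hFG g hg
        ((⟨g, Subgroup.mem_centralizer_singleton_iff.2 rfl⟩ :
          Subgroup.centralizer ({g} : Set (supp u v))) ^ m) (fun h4 => by
            apply hg
            apply Subtype.ext
            apply htor
            rw [isOfFinOrder_iff_pow_eq_one]
            refine ⟨m, Nat.pos_of_ne_zero hm, ?_⟩
            exact congrArg (fun z : Subgroup.centralizer ({g} : Set (supp u v)) =>
              ((z : supp u v) : G)) h4)
      refine ⟨Subgroup.centralizer ({g} : Set (supp u v)) ⧸ N, inferInstance,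
        Subgroup.finite_quotient_of_finiteIndex, QuotientGroup.mk' N, ?_⟩
      intro h4
      apply h3
      rw [← QuotientGroup.eq_one_iff]
      exact h4
  · refine ⟨1, ?_⟩
    intro Ω _ _ 𝒜 _ M _ _ δ T n hT ρ hρ h
    exfalso
    apply hHG
    intro g hg
    rcases h with ⟨-, hloc⟩ | ⟨⟨htor, hG⟩, -⟩
    · rcases hloc g hg with h1 | ⟨h1, -⟩
      · exact Or.inl h1
      · exact Or.inr h1
    · refine Or.inr fun m hm => ?_
      obtain ⟨N, h1, h2, h3⟩ := hG _ hFG g hg
        ((⟨g, Subgroup.mem_centralizer_singleton_iff.2 rfl⟩ :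
          Subgroup.centralizer ({g} : Set (supp u v))) ^ m) (fun h4 => by
            apply hg
            apply Subtype.ext
            apply htor
            rw [isOfFinOrder_iff_pow_eq_one]
            refine ⟨m, Nat.pos_of_ne_zero hm, ?_⟩
            exact congrArg (fun z : Subgroup.centralizer ({g} : Set (supp u v)) =>
              ((z : supp u v) : G)) h4)
      refine ⟨Subgroup.centralizer ({g} : Set (supp u v)) ⧸ N, inferInstance,
        Subgroup.finite_quotient_of_finiteIndex, QuotientGroup.mk' N, ?_⟩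
      intro h4
      apply h3
      rw [← QuotientGroup.eq_one_iff]
      exact h4

end Pool.Agent.Results.MP_16fe43_al.WhiteheadTraces
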